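import Pool.Agent.H29.DW.Targets

/-!
# The hybrid Weyl bound: Fourier transforms of bump functions
-/

set_option autoImplicit false

open MeasureTheory Set Filter Complex

namespace Pool.Agent.H64.DW

open Pool.Agent.H29.DW

section

variable {V : Type} [NormedAddCommGroup V] [InnerProductSpace ℝ V] [FiniteDimensional ℝ V]
  [MeasurableSpace V] [BorelSpace V]

theorem gen_pow (A : ℕ) (B : ℝ) (f : V → ℂ) (hf : ∀ n : ℕ, ContDiff ℝ n f)
    (hs : ∀ x : V, 1 / 16 < ‖x‖ → f x = 0)
    (hb : ∀ j : ℕ, j ≤ A → ∀ x : V, ‖iteratedFDeriv ℝ j f x‖ ≤ B) (w : V) (n : ℕ) (hn : n ≤ A) :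
    ‖w‖ ^ n * ‖FourierTransform.fourier f w‖ ≤
      2 ^ n * ((n + 1) * (B * (volume : Measure V).real (Metric.closedBall 0 (1 / 16)))) := by
  have hsub : tsupport f ⊆ Metric.closedBall (0 : V) (1 / 16) := by
    refine closure_minimal (fun x hx => ?_) Metric.isClosed_closedBall
    rw [Metric.mem_closedBall, dist_zero_right]
    by_contra hcon
    exact hx (hs x (not_le.1 hcon))
  have hcs : HasCompactSupport f :=
    (isCompact_closedBall (0 : V) (1 / 16)).of_isClosed_subset (isClosed_tsupport f) hsub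
  have hzero : ∀ j : ℕ, ∀ x ∉ Metric.closedBall (0 : V) (1 / 16), iteratedFDeriv ℝ j f x = 0 := by
    intro j x hx
    by_contra hcon
    exact hx (hsub (support_iteratedFDeriv_subset j hcon))
  have hint : ∀ (k n : ℕ), Integrable (fun v : V => ‖v‖ ^ k * ‖iteratedFDeriv ℝ n f v‖) := by
    intro k n
    have hc : Continuous (iteratedFDeriv ℝ n f) := (hf n).continuous_iteratedFDeriv le_rfl
    refine Continuous.integrable_of_hasCompactSupport (by fun_prop) ?_
    refine (isCompact_closedBall (0 : V) (1 / 16)).of_isClosed_subset (isClosed_tsupport _) ?_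
    refine closure_minimal (fun x hx => ?_) Metric.isClosed_closedBall
    by_contra hcon
    apply hx
    simp only
    rw [hzero n x hcon, norm_zero, mul_zero]
  have hI : ∀ j : ℕ, j ≤ A → ∫ v : V, ‖v‖ ^ 0 * ‖iteratedFDeriv ℝ j f v‖ ≤
      B * (volume : Measure V).real (Metric.closedBall 0 (1 / 16)) := by
    intro j hj
    rw [← setIntegral_eq_integral_of_forall_compl_eq_zero
      (s := Metric.closedBall (0 : V) (1 / 16)) (fun x hx => by
        rw [hzero j x hx, norm_zero, mul_zero])]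
    refine (le_abs_self _).trans ?_
    rw [← Real.norm_eq_abs]
    refine norm_setIntegral_le_of_norm_le_const
      (isCompact_closedBall (0 : V) (1 / 16)).measure_lt_top fun x _ => ?_
    rw [pow_zero, one_mul, norm_norm]
    exact hb j hj x
  have h1 := Real.pow_mul_norm_iteratedFDeriv_fourier_le (f := f) (K := 0) (N := A)
    (by exact_mod_cast hf A) (fun k n _ _ => hint k n) (k := 0) (n := n) le_rfl
    (by exact_mod_cast hn) w
  rw [norm_iteratedFDeriv_zero] at h1
  refine h1.trans ?_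
  have h2 : ∑ p ∈ Finset.range (0 + 1) ×ˢ Finset.range (n + 1),
      ∫ v : V, ‖v‖ ^ p.1 * ‖iteratedFDeriv ℝ p.2 f v‖ ≤
      (n + 1) * (B * (volume : Measure V).real (Metric.closedBall 0 (1 / 16))) := by
    have h3 : ∀ p ∈ Finset.range (0 + 1) ×ˢ Finset.range (n + 1),
        ∫ v : V, ‖v‖ ^ p.1 * ‖iteratedFDeriv ℝ p.2 f v‖ ≤
        B * (volume : Measure V).real (Metric.closedBall 0 (1 / 16)) := by
      intro p hp
      rw [Finset.mem_product, Finset.mem_range, Finset.mem_range] at hp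
      have h4 : p.1 = 0 := by omega
      rw [h4]
      exact hI p.2 (by omega)
    refine (Finset.sum_le_card_nsmul _ _ _ h3).trans (le_of_eq ?_)
    rw [Finset.card_product, Finset.card_range, Finset.card_range, nsmul_eq_mul]
    push_cast
    ring
  have h3 : ((2 * Real.pi) ^ 0 * (2 * ((0 : ℕ) : ℝ) + 2) ^ n : ℝ) = 2 ^ n := by simp
  rw [h3]
  exact mul_le_mul_of_nonneg_left h2 (by positivity)

theorem gen (A : ℕ) (B : ℝ) (hB : 0 ≤ B) (f : V → ℂ) (hf : ∀ n : ℕ, ContDiff ℝ n f)
    (hs : ∀ x : V, 1 / 16 < ‖x‖ → f x = 0)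
    (hb : ∀ j : ℕ, j ≤ A → ∀ x : V, ‖iteratedFDeriv ℝ j f x‖ ≤ B) (w : V) :
    ‖FourierTransform.fourier f w‖ ≤ (2 ^ A * (1 + 2 ^ A * (A + 1)) *
      (volume : Measure V).real (Metric.closedBall 0 (1 / 16))) * B *
        (1 + ‖w‖) ^ (-(A : ℝ)) := by
  have h0 := gen_pow A B f hf hs hb w 0 (Nat.zero_le _)
  have h1 := gen_pow A B f hf hs hb w A le_rfl
  have hv : 0 ≤ (volume : Measure V).real (Metric.closedBall (0 : V) (1 / 16)) :=
    measureReal_nonneg
  set v := (volume : Measure V).real (Metric.closedBall (0 : V) (1 / 16))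
  set F := ‖FourierTransform.fourier f w‖
  have hF : 0 ≤ F := norm_nonneg _
  have h2 : (1 + ‖w‖) ^ A ≤ 2 ^ A * (1 + ‖w‖ ^ A) := by
    refine (add_pow_le zero_le_one (norm_nonneg w) A).trans ?_
    rw [one_pow]
    refine mul_le_mul_of_nonneg_right ?_ (by positivity)
    exact pow_le_pow_right₀ (by norm_num) (Nat.sub_le _ _)
  have h3 : (1 + ‖w‖) ^ A * F ≤ 2 ^ A * (1 + 2 ^ A * (A + 1)) * v * B := by
    calc (1 + ‖w‖) ^ A * F ≤ 2 ^ A * (1 + ‖w‖ ^ A) * F := mul_le_mul_of_nonneg_right h2 hF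
      _ = 2 ^ A * (‖w‖ ^ 0 * F + ‖w‖ ^ A * F) := by ring
      _ ≤ 2 ^ A * (2 ^ 0 * (((0 : ℕ) + 1) * (B * v)) + 2 ^ A * ((A + 1) * (B * v))) :=
          mul_le_mul_of_nonneg_left (add_le_add h0 h1) (by positivity)
      _ = _ := by
          push_cast
          ring
  rw [Real.rpow_neg (by positivity), Real.rpow_natCast, ← div_eq_mul_inv,
    le_div_iff₀ (by positivity), mul_comm F]
  exact h3

end

theorem pf_FT : V_FT := by
  intro A
  set cR := 2 ^ A * (1 + 2 ^ A * ((A : ℝ) + 1)) *
    (volume : Measure ℝ).real (Metric.closedBall 0 (1 / 16)) with hcR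
  set cC := 2 ^ A * (1 + 2 ^ A * ((A : ℝ) + 1)) *
    (volume : Measure ℂ).real (Metric.closedBall 0 (1 / 16)) with hcC
  have hcR0 : 0 ≤ cR := by positivity
  have hcC0 : 0 ≤ cC := by positivity
  refine ⟨cR + 2 * cC, by positivity, ?_⟩
  intro r B q hB hq ξ hξ
  have hx0 : (0 : ℝ) ≤ (1 + ‖ξ‖) ^ (-(A : ℝ)) := by positivity
  cases r with
  | true =>
    have him : ξ.im = 0 := hξ rfl
    have hnorm : ‖ξ‖ = ‖ξ.re‖ := by
      have : ξ = (ξ.re : ℂ) := Complex.ext rfl (by simpa using him)
      rw [this, Complex.norm_real, Complex.ofReal_re]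
    have h1 := gen (V := ℝ) A B hB (fun x : ℝ => q (x : ℂ))
      (fun n => (hq.smooth n).comp Complex.ofRealCLM.contDiff)
      (fun x hx => hq.supp x (by rwa [Complex.norm_real]))
      (fun j hj x => by
        have h2 := Complex.ofRealCLM.iteratedFDeriv_comp_right (hq.smooth j) x (i := j) le_rfl
        have h3 : (fun x : ℝ => q (x : ℂ)) = q ∘ ⇑Complex.ofRealCLM := rfl
        rw [h3, h2]
        refine (ContinuousMultilinearMap.norm_compContinuousLinearMap_le _ _).trans ?_
        simp only [Complex.ofRealCLM_norm, Finset.prod_const_one, mul_one]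
        exact hq.bound j hj _) ξ.re
    have h2 : lf true q ξ = FourierTransform.fourier (fun x : ℝ => q (x : ℂ)) ξ.re := by
      rw [Real.fourier_eq']
      unfold lf
      rw [if_pos rfl]
      congr 1
      funext x
      rw [smul_eq_mul]
      congr 3
      push_cast
      simp only [RCLike.inner_apply, conj_trivial]
      push_cast
      ring
    rw [h2, hnorm]
    refine h1.trans ?_
    rw [hnorm] at hx0
    refine mul_le_mul_of_nonneg_right (mul_le_mul_of_nonneg_right ?_ hB) hx0
    linarith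
  | false =>
    have h1 := gen (V := ℂ) A B hB q hq.smooth hq.supp hq.bound
      (2 * (starRingEnd ℂ) ξ)
    have h2 : lf false q ξ = 2 * FourierTransform.fourier q (2 * (starRingEnd ℂ) ξ) := by
      rw [Real.fourier_eq']
      unfold lf
      rw [if_neg (by simp)]
      congr 2
      funext x
      rw [smul_eq_mul]
      congr 3
      rw [Complex.inner]
      have h3 : (2 * (starRingEnd ℂ) ξ * (starRingEnd ℂ) x).re = 2 * (x * ξ).re := by
        simp only [Complex.mul_re, Complex.conj_re, Complex.conj_im, Complex.mul_im]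
        simp
        ring
      rw [h3]
      push_cast
      ring
    rw [h2, norm_mul]
    have h4 : (1 + ‖2 * (starRingEnd ℂ) ξ‖) ^ (-(A : ℝ)) ≤ (1 + ‖ξ‖) ^ (-(A : ℝ)) := by
      apply Real.rpow_le_rpow_of_nonpos (by positivity)
      · rw [norm_mul, RCLike.norm_conj, Complex.norm_ofNat]
        have := norm_nonneg ξ
        linarith
      · have : (0 : ℝ) ≤ A := by positivity
        linarith
    rw [Complex.norm_ofNat]
    calc 2 * ‖FourierTransform.fourier q (2 * (starRingEnd ℂ) ξ)‖ ≤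
          2 * (cC * B * (1 + ‖2 * (starRingEnd ℂ) ξ‖) ^ (-(A : ℝ))) :=
          mul_le_mul_of_nonneg_left h1 (by norm_num)
      _ ≤ 2 * (cC * B * (1 + ‖ξ‖) ^ (-(A : ℝ))) := by
          refine mul_le_mul_of_nonneg_left ?_ (by norm_num)
          exact mul_le_mul_of_nonneg_left h4 (by positivity)
      _ ≤ (cR + 2 * cC) * B * (1 + ‖ξ‖) ^ (-(A : ℝ)) := by
          have h5 : 0 ≤ cR * B * (1 + ‖ξ‖) ^ (-(A : ℝ)) := by positivity
          linarith

end Pool.Agent.H64.DW
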