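import Pool.Agent.H29.DW.Targets

/-!
# The hybrid Weyl bound: from powers to Gaussians
-/

set_option autoImplicit false

open MeasureTheory Set Filter Complex

namespace Pool.Agent.H64.DW

open Pool.Agent.H29.DW

theorem pf_GS : V_GS := by
  intro n A hA
  refine ⟨2 ^ A * Real.exp (2 * Real.pi * n), by positivity, ?_⟩
  intro ι _ e a b he he12 hab
  classical
  have hpi := Real.pi_pos
  set f : ℕ → ℝ := fun j => (2 : ℝ) ^ (-((A * j : ℕ) : ℝ)) *
    Real.exp (-Real.pi * ∑ i, (e i : ℝ) * ((a i / 2 ^ j) ^ 2 + (b i / 2 ^ j) ^ 2)) with hf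
  have hf0 : ∀ j, 0 ≤ f j := fun j => by positivity
  have hsum : Summable f := by
    refine Summable.of_nonneg_of_le hf0 (fun j => ?_)
      (summable_geometric_of_lt_one (r := (1 / 2 : ℝ)) (by norm_num) (by norm_num))
    have h1 : (2 : ℝ) ^ (-((A * j : ℕ) : ℝ)) ≤ (1 / 2) ^ j := by
      have h2 : ((1 / 2 : ℝ)) ^ j = (2 : ℝ) ^ (-(j : ℝ)) := by
        rw [Real.rpow_neg (by norm_num), Real.rpow_natCast, one_div, inv_pow]
      rw [h2]
      apply Real.rpow_le_rpow_of_exponent_le (by norm_num)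
      rw [neg_le_neg_iff, Nat.cast_le]
      nlinarith
    have h3 : Real.exp (-Real.pi * ∑ i, (e i : ℝ) * ((a i / 2 ^ j) ^ 2 + (b i / 2 ^ j) ^ 2)) ≤
        1 := by
      rw [Real.exp_le_one_iff]
      have : 0 ≤ ∑ i, (e i : ℝ) * ((a i / 2 ^ j) ^ 2 + (b i / 2 ^ j) ^ 2) :=
        Finset.sum_nonneg fun i _ => by positivity
      nlinarith
    calc f j ≤ (1 / 2) ^ j * 1 := by
          rw [hf]
          exact mul_le_mul h1 h3 (Real.exp_nonneg _) (by positivity)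
      _ = _ := mul_one _
  refine ⟨hsum, ?_⟩
  have hex : ∃ j : ℕ, ∀ i, a i ≤ 2 ^ j ∧ b i ≤ 2 ^ j := by
    refine ⟨⌈∑ i, (a i + b i)⌉₊, fun i => ?_⟩
    have h1 : a i + b i ≤ ∑ i, (a i + b i) :=
      Finset.single_le_sum (f := fun i => a i + b i)
        (fun i _ => add_nonneg (hab i).1 (hab i).2) (Finset.mem_univ i)
    have h2 := Nat.le_ceil (∑ i, (a i + b i))
    have h3 : ((⌈∑ i, (a i + b i)⌉₊ : ℕ) : ℝ) ≤ 2 ^ ⌈∑ i, (a i + b i)⌉₊ := by
      exact_mod_cast (Nat.lt_two_pow_self).le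
    have := (hab i).1
    have := (hab i).2
    constructor <;> linarith
  set j := Nat.find hex with hj
  have hj1 : ∀ i, a i ≤ 2 ^ j ∧ b i ≤ 2 ^ j := Nat.find_spec hex
  have hF : ∀ x : ℝ, 0 ≤ x → 0 ≤ (1 + x) ^ (-(A : ℝ)) ∧ (1 + x) ^ (-(A : ℝ)) ≤ 1 := by
    intro x hx
    exact ⟨by positivity, Real.rpow_le_one_of_one_le_of_nonpos (by linarith)
      (by
        have : (0 : ℝ) ≤ A := by positivity
        linarith)⟩
  have hP : ∀ i, 0 ≤ (1 + a i) ^ (-(A : ℝ)) * (1 + b i) ^ (-(A : ℝ)) ∧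
      (1 + a i) ^ (-(A : ℝ)) * (1 + b i) ^ (-(A : ℝ)) ≤ 1 := by
    intro i
    have h1 := hF (a i) (hab i).1
    have h2 := hF (b i) (hab i).2
    exact ⟨mul_nonneg h1.1 h2.1, mul_le_one₀ h1.2 h2.1 h2.2⟩
  have hprod : ∏ i, ((1 + a i) ^ (-(A : ℝ)) * (1 + b i) ^ (-(A : ℝ))) ≤
      2 ^ A * (2 : ℝ) ^ (-((A * j : ℕ) : ℝ)) := by
    rcases Nat.eq_zero_or_pos j with h0 | h0
    · rw [h0]
      have h1 : ∏ i, ((1 + a i) ^ (-(A : ℝ)) * (1 + b i) ^ (-(A : ℝ))) ≤ 1 :=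
        Finset.prod_le_one (fun i _ => (hP i).1) fun i _ => (hP i).2
      have h2 : (1 : ℝ) ≤ 2 ^ A := one_le_pow₀ (by norm_num)
      simpa using h1.trans h2
    · obtain ⟨j', hj'⟩ : ∃ j', j = j' + 1 := ⟨j - 1, by omega⟩
      have h1 : ¬ ∀ i, a i ≤ 2 ^ j' ∧ b i ≤ 2 ^ j' :=
        Nat.find_min hex (by rw [← hj]; omega)
      push Not at h1
      obtain ⟨i, hi⟩ := h1
      have h2 : ∀ x : ℝ, 2 ^ j' < x → (1 + x) ^ (-(A : ℝ)) ≤ (2 : ℝ) ^ (-((A * j' : ℕ) : ℝ)) := by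
        intro x hx
        have h3 : (1 + x) ^ (-(A : ℝ)) ≤ ((2 : ℝ) ^ j') ^ (-(A : ℝ)) := by
          apply Real.rpow_le_rpow_of_nonpos (by positivity) (by linarith)
          have : (0 : ℝ) ≤ A := by positivity
          linarith
        refine h3.trans (le_of_eq ?_)
        rw [← Real.rpow_natCast 2 j', ← Real.rpow_mul (by norm_num)]
        congr 1
        push_cast
        ring
      have h4 : (1 + a i) ^ (-(A : ℝ)) * (1 + b i) ^ (-(A : ℝ)) ≤
          (2 : ℝ) ^ (-((A * j' : ℕ) : ℝ)) := by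
        have ha := hF (a i) (hab i).1
        have hb := hF (b i) (hab i).2
        by_cases h5 : a i ≤ 2 ^ j'
        · calc _ ≤ 1 * (2 : ℝ) ^ (-((A * j' : ℕ) : ℝ)) :=
                mul_le_mul ha.2 (h2 _ (hi h5)) hb.1 zero_le_one
            _ = _ := one_mul _
        · push Not at h5
          calc _ ≤ (2 : ℝ) ^ (-((A * j' : ℕ) : ℝ)) * 1 :=
                mul_le_mul (h2 _ h5) hb.2 hb.1 (by positivity)
            _ = _ := mul_one _
      rw [← Finset.mul_prod_erase Finset.univ _ (Finset.mem_univ i)]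
      have h6 : ∏ i ∈ Finset.univ.erase i,
          ((1 + a i) ^ (-(A : ℝ)) * (1 + b i) ^ (-(A : ℝ))) ≤ 1 :=
        Finset.prod_le_one (fun i _ => (hP i).1) fun i _ => (hP i).2
      have h7 : 0 ≤ ∏ i ∈ Finset.univ.erase i,
          ((1 + a i) ^ (-(A : ℝ)) * (1 + b i) ^ (-(A : ℝ))) :=
        Finset.prod_nonneg fun i _ => (hP i).1
      refine (mul_le_mul h4 h6 h7 (by positivity)).trans (le_of_eq ?_)
      rw [mul_one, hj', ← Real.rpow_natCast 2 A, ← Real.rpow_add (by norm_num)]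
      congr 1
      push_cast
      ring
  have hexp : Real.exp (-(2 * Real.pi * n)) ≤
      Real.exp (-Real.pi * ∑ i, (e i : ℝ) * ((a i / 2 ^ j) ^ 2 + (b i / 2 ^ j) ^ 2)) := by
    apply Real.exp_le_exp.2
    have h1 : ∑ i, (e i : ℝ) * ((a i / 2 ^ j) ^ 2 + (b i / 2 ^ j) ^ 2) ≤ ∑ i, (e i : ℝ) * 2 := by
      refine Finset.sum_le_sum fun i _ => ?_
      refine mul_le_mul_of_nonneg_left ?_ (by positivity)
      have h2 : a i / 2 ^ j ≤ 1 := (div_le_one (by positivity)).2 (hj1 i).1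
      have h3 : b i / 2 ^ j ≤ 1 := (div_le_one (by positivity)).2 (hj1 i).2
      have h4 : 0 ≤ a i / 2 ^ j := div_nonneg (hab i).1 (by positivity)
      have h5 : 0 ≤ b i / 2 ^ j := div_nonneg (hab i).2 (by positivity)
      nlinarith
    have h2 : ∑ i, (e i : ℝ) * 2 = 2 * n := by
      rw [← Finset.sum_mul, ← he]
      push_cast
      ring
    rw [h2] at h1
    nlinarith
  have hfj : (2 : ℝ) ^ (-((A * j : ℕ) : ℝ)) * Real.exp (-(2 * Real.pi * n)) ≤ f j :=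
    mul_le_mul_of_nonneg_left hexp (by positivity)
  have hle : f j ≤ ∑' j, f j := hsum.le_tsum j fun i _ => hf0 i
  calc _ ≤ 2 ^ A * (2 : ℝ) ^ (-((A * j : ℕ) : ℝ)) := hprod
    _ = 2 ^ A * Real.exp (2 * Real.pi * n) *
        ((2 : ℝ) ^ (-((A * j : ℕ) : ℝ)) * Real.exp (-(2 * Real.pi * n))) := by
        rw [Real.exp_neg]
        field_simp
    _ ≤ _ := mul_le_mul_of_nonneg_left (hfj.trans hle) (by positivity)

end Pool.Agent.H64.DW
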